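import Pool.Agent.U36.SC.Main

/-!
# Adelic sections of fundamental groups of affine curves over all number fields

Let `K` be a number field, `U` an affine curve over `K` with function field `F`, given by the
valuation rings of its closed points, and `M` the maximal extension of `F` in an algebraic closure
which is unramified over `U`, so that `Gal(M/F) = π₁(U)`.  Suppose that `U` has a nonconstant map `t`
to the projective line minus `∞` and a set `C` of at least `[K : ℚ]` rational points (or at least
`[K : k]`, for a subfield `k` with finitely many units), for instance that `U` is the projective line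
minus at least `[K : ℚ] + 1` rational points.

Let `s` be a section of `π₁(U) → Gal(B/K)` which is adelic: at every finite place `v` it is given by a
point `p v` of `U` over the completion `K_v`, and `t(p v) - c` is a unit for almost all `v`, `c ∈ C`.
Then there is one `a ∈ K` outside `C` with `t(p v) = a` for all `v`.  Every unit `z` of `U`, and also
every unit of each étale neighbourhood of `s` (that is, every `z` in `M` which is fixed by `s` and is
a unit over `U`), has one value `φ(z) ∈ Kˣ` at all the local points, and its Kummer class along `s` is
the class of this number: for every `n`, `z = φ(z) wⁿ` with `w` again a unit fixed by `s`.  So `φ` is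
a rational point of the spectrum of the `K`-algebra generated by all these units, all the local
points lie over `φ`, and `s` agrees with `φ` in the Kummer part of `π₁(U)`.  If `U` is an open
subcurve of the projective line, then this means that all local points of `s` are one rational point
of `U`, whose section agrees with `s` in the geometrically abelian quotient of `π₁(U)`.

Proof. By Hilbert's theorem 90 for the fixed field of `s` the families `(t(p v) - c)_v` are global
modulo `n`-th powers for all `n`.  By the class number and the units of `k` (norms to `k`) all the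
`t(p v)` are roots of one polynomial over `K`.  Then the following statement on finite subschemes of
the multiplicative group is applied to all units: if the `x v ∈ K_vˣ` are roots of one polynomial over
`K`, and there are classes `b_n ∈ Kˣ` modulo `n`-th powers, compatible for all `n`, with
`x v ∈ b_n (K_vˣ)ⁿ`, then all the `x v` are one element `a` of `Kˣ`, and `b_n ∈ a (Kˣ)ⁿ`.  This is
proved by Chebotarev's density theorem, a covering of a Galois group by cosets and the vanishing up to
a bounded exponent of the kernel of `Lˣ / n → L(μ_n)ˣ / n`.
-/

set_option autoImplicit false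

open IsDedekindDomain NumberField WithZero Pool.Agent.TH954

namespace Pool.Agent.Results.MP_c1dca2_ag.AdelicSectionsOfAffineCurves

/-- `z` is a unit over the curve with the valuation rings `U`: a unit of every valuation ring of `M`
above an element of `U`. -/
def UnitOver {F M : Type} [Field F] [Field M] [Algebra F M] (U : Set (ValuationSubring F)) (z : M) :
    Prop :=
  ∀ W : ValuationSubring M, W.comap (algebraMap F M) ∈ U → z ∈ W ∧ z⁻¹ ∈ W

/-- the units of `U` and of the étale neighbourhoods of the section `s`: the nonzero elements of `M`
which are fixed by `s` and are units over `U` -/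
def units {K F M B : Type} [Field K] [Field F] [Field M] [Field B] [Algebra F M] [Algebra K M]
    [Algebra K B] (U : Set (ValuationSubring F)) (s : GalSection K F M B) : Set M :=
  {z | z ≠ 0 ∧ (∀ g, s.s g z = z) ∧ UnitOver U z}

/-- The place `p` is a point of the curve with the valuation rings `U`: its valuation ring is all of
`M` or lies above an element of `U`. -/
def PointOf {K F M : Type} [Field K] [Field F] [Field M] [Algebra F M] [Algebra K M]
    (U : Set (ValuationSubring F)) {C : Type} [Field C] [Algebra K C] (p : Plc K M C) : Prop :=
  p.W = ⊤ ∨ p.W.comap (algebraMap F M) ∈ U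

/-- The function `t` has at the place `p v` a value in the completion `K_v`, for every finite place
`v`, and for every `c ∈ C` the valuations of these values minus `c` are bounded. -/
def BoundedAway {K F M : Type} [Field K] [NumberField K] [Field F] [Field M] [Algebra F M]
    [Algebra K M]
    (p : ∀ v : HeightOneSpectrum (𝓞 K), Plc K M (AlgebraicClosure (v.adicCompletion K)))
    (t : F) (C : Finset K) : Prop :=
  ∃ N : ℕ, ∀ v : HeightOneSpectrum (𝓞 K), ∃ x : v.adicCompletion K,
    (p v).val (algebraMap F M t)
      (algebraMap (v.adicCompletion K) (AlgebraicClosure (v.adicCompletion K)) x) ∧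
    ∀ c ∈ C, exp (-(N : ℤ)) ≤ Valued.v (x - algebraMap K (v.adicCompletion K) c) ∧
      Valued.v (x - algebraMap K (v.adicCompletion K) c) ≤ exp (N : ℤ)

/-- The statement for the number field `K` and the finite set `C`: let `U` be a set of valuation rings
of the function field `F` of a curve over `K`, `M` the maximal extension of `F` unramified over `U`,
`t ∈ F` transcendental over `K` such that the `t - c`, `c ∈ C`, are units of `U`, and `s` a section of
`Gal(M/F) → Gal(B/K)` which is given over every completion `K_v` by a point `p v` of `U`, such that
`t` is bounded away from `C` and `∞` at the `p v`. Then `t` has at all `p v` the same value in `K`,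
not in `C`, and there is a homomorphism `φ` to `K` from the `K`-algebra generated by the units of the
neighbourhoods of `s` which gives the values at all the `p v`, and every unit `z` is `φ z` times an
`n`-th power of a unit, for all `n`. -/
def Criterion (K : Type) [Field K] [NumberField K] (C : Finset K) : Prop :=
  ∀ (F Ω M B : Type) [Field F] [Field Ω] [Field M] [Field B] [Algebra K F] [Algebra F Ω]
    [Algebra K Ω] [IsScalarTower K F Ω] [IsAlgClosure F Ω] [Algebra F M] [Algebra K M]
    [IsScalarTower K F M] [Algebra K B] [IsAlgClosure K B] (U : Set (ValuationSubring F)),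
    (∀ O ∈ U, ∀ c : K, algebraMap K F c ∈ O) →
    ∀ e : M →ₐ[F] Ω, Pool.Agent.W620.SC.unramified F Ω U = e.fieldRange →
    ∀ t : F, Transcendental K t → Algebra.IsAlgebraic (IntermediateField.adjoin K {t}) F →
    (∀ c ∈ C, ∀ O ∈ U, t - algebraMap K F c ∈ O ∧ (t - algebraMap K F c)⁻¹ ∈ O) →
    ∀ (s : GalSection K F M B)
      (p : ∀ v : HeightOneSpectrum (𝓞 K), Plc K M (AlgebraicClosure (v.adicCompletion K))),
      (∀ v, s.GivenBy (v.adicCompletion K) (p v)) → (∀ v, PointOf U (p v)) →
      BoundedAway p t C →
      (∃ a : K, a ∉ C ∧ ∀ v, (p v).val (algebraMap F M t) (algebraMap K _ a)) ∧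
      ∃ φ : Algebra.adjoin K (units U s) →ₐ[K] K,
        (∀ v (z : Algebra.adjoin K (units U s)), (p v).val (z : M) (algebraMap K _ (φ z))) ∧
        ∀ z : Algebra.adjoin K (units U s), (z : M) ∈ units U s → ∀ n : ℕ, 1 ≤ n →
          ∃ w ∈ units U s, (z : M) = algebraMap K M (φ z) * w ^ n

theorem criterion (k K : Type) [Field k] [NumberField k] [Field K] [NumberField K] [Algebra k K]
    (hk : Finite (𝓞 k)ˣ) (C : Finset K) (hC : Module.finrank k K ≤ C.card) : Criterion K C := by
  intro F Ω M B _ _ _ _ _ _ _ _ _ _ _ _ _ _ U hU e he t ht hF htC s p hp hpU hb
  have hΩ1 : IsAlgClosed Ω := IsAlgClosure.isAlgClosed F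
  have hΩ2 : Algebra.IsAlgebraic F Ω := IsAlgClosure.isAlgebraic
  have hM : Algebra.IsAlgebraic F M := Algebra.IsAlgebraic.of_injective e (e : M →+* Ω).injective
  obtain ⟨N, hb⟩ := hb
  choose x hx hN using hb
  have ht0 : ∀ c : K, t - algebraMap K F c ≠ 0 := by
    intro c h0
    apply ht
    rw [sub_eq_zero] at h0
    rw [h0]
    exact isAlgebraic_algebraMap _
  have hw : ∀ c ∈ C, ∀ n : ℕ, 0 < n → ∃ w : M, w ^ n = algebraMap F M (t - algebraMap K F c) := by
    intro c hc n hn
    refine Pool.Agent.U36.SC.root_unram U hU e he _ ?_ ?_ n hn
    · exact (_root_.map_ne_zero _).2 (ht0 c)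
    · intro W hW
      obtain ⟨h1, h2⟩ := htC c hc _ hW
      rw [ValuationSubring.mem_comap] at h1 h2
      rw [map_inv₀] at h2
      exact ⟨h1, h2⟩
  obtain ⟨a, ha⟩ := Pool.Agent.U36.SC.main_t (k := k) C hC s t ht hw p hp x hx N
    (fun c hc v => hN v c hc)
  have hta : ∀ v, (p v).val (algebraMap F M t) (algebraMap K _ a) := by
    intro v
    have h1 := hx v
    rwa [ha v, ← IsScalarTower.algebraMap_apply] at h1
  refine ⟨⟨a, fun haC => ?_, hta⟩, Pool.Agent.U36.SC.main_units U hU e he s t ht hF p hp hpU a hta⟩
  obtain ⟨v⟩ := Pool.Agent.U36.SC.exists_place K
  have h1 := (hN v a haC).1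
  rw [ha v, sub_self, map_zero] at h1
  exact absurd h1 (not_le.2 (zero_lt_iff.2 exp_ne_zero))

theorem finite_units_rat : Finite (𝓞 ℚ)ˣ :=
  Finite.of_equiv ℤˣ (Units.mapEquiv (Rat.ringOfIntegersEquiv : 𝓞 ℚ ≃* ℤ)).symm.toEquiv

/-- Over every number field `K`, and for every set `C` of at least `[K : ℚ]` elements of `K`: adelic
sections of fundamental groups of curves over the projective line minus `C` and `∞` have local points
over one rational point, and agree with it on all units. If `k` is a subfield with finitely many
units, then `[K : k]` elements are sufficient. -/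
theorem result :
    (∀ (K : Type) [Field K] [NumberField K] (C : Finset K),
      Module.finrank ℚ K ≤ C.card → Criterion K C) ∧
    ∀ (k K : Type) [Field k] [NumberField k] [Field K] [NumberField K] [Algebra k K],
      Finite (𝓞 k)ˣ → ∀ C : Finset K, Module.finrank k K ≤ C.card → Criterion K C :=
  ⟨fun K _ _ C hC => criterion ℚ K finite_units_rat C hC,
    fun k K _ _ _ _ _ hk C hC => criterion k K hk C hC⟩

end Pool.Agent.Results.MP_c1dca2_ag.AdelicSectionsOfAffineCurves
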