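import Pool.Agent.U449.BV.P
import Pool.Agent.Results.MP_c1dca2_ag.TwistsWithMixedFactors

/-!
# No points and no sections on the twists of superelliptic curves by the values of polynomials on arbitrary dense sets

Let `p` be a prime and `f(x, y)` ANY polynomial modulo `p` of degree at most `d` with a monomial which contains both variables (for
example `f = x y`), let `A`, `B` be ARBITRARY sets of residues modulo `p`, `g`, `h` ARBITRARY functions, and `1 ≤ W ≤ p`.
For all but `Θ |A| |B|` of the pairs `(a, b)` in `A × B`, where `Θ ^ 2 = C d e(p) (p / |A| + W p / |B|)`, `e(X) = 1 / (1 + log X) ^ s`, `s > 0` a number which depends on the `F k`,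
ALL squarefree integers `t` with `|t|` at a distance of at most `W` from the least residue of `f(a, b) + g(a) + h(b)` are such that
for all even `n ≥ 2` the curve `t yⁿ = ∏ k, F k (x)` has no rational point, and its fundamental group (and that of any open
subcurve) has no section.
So this holds for almost all pairs if `A`, `B` are dense and `W` is small in the same sense as the set of the exceptions is sparse.
More generally, this holds for all functions `F(a, b)` with few coincidences (`Rare`).

Since the sets and the functions `g` and `h` are arbitrary, the values have no arithmetic structure, and a value may be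
taken by very many pairs. So the number of the exceptions (starting library) does not give the result directly. Proof: the
inequality of Cauchy and Schwarz; for most pairs `a, a'` the difference `F(a, b) - F(a', b)` is small for few `b`
(`Pool.Agent.U449.BV`).
-/

set_option autoImplicit false

namespace Pool.Agent.Results.MP_c1dca2_ag.MixedOnDenseSets

open Polynomial
open Pool.Agent.U449.BV (Rare OnDense on_dense_twist residues)
open Pool.Agent.Results.MP_c1dca2_ag.TwistsWithMixedFactors (Factors NoPoint NoSection Exceptional)

universe v w

/-- For ALL squarefree integers `t` with `||t| - x| ≤ W` and all even `n ≥ 2` the curve `t yⁿ = G` has no rational point, and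
neither its fundamental group nor that of an open subcurve has a section. -/
def Near (G : ℚ[X]) (W x : ℝ) : Prop :=
  ∀ t : ℤ, |(|t| : ℝ) - x| ≤ W → Squarefree t →
    ∀ n : ℕ, 0 < n → Even n → NoPoint n (t : ℚ) G ∧ NoSection.{0, v, w} n (t : ℚ) G

/-- **Theorem.** Let `F k ∈ ℤ[x]` be irreducible over `ℚ`, pairwise not associated, of even total degree, none of degree one, and at least
four of them of odd degree, and let `G` be their product. There is `s > 0` such that the property `Near G` holds for almost all
values of functions of two variables with few coincidences on arbitrary dense sets, with the density `1 / (1 + log X) ^ s` of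
exceptions (`OnDense`).
The least residues modulo `p` of `f(a, b) + g(a) + h(b)` are such a function, bounded by `X = p`, for all primes `p`, all
polynomials `f` modulo `p` with a monomial which contains both variables, arbitrary functions `g` and `h`, and arbitrary sets of
residues. -/
theorem result :
    (∀ (K : Type) [Fintype K] [DecidableEq K] (F : K → ℤ[X]), Factors F → (∀ k, (F k).natDegree ≠ 1) →
      ∃ s : ℝ, 0 < s ∧ OnDense (fun X => 1 / (1 + Real.log X) ^ s) (Near.{v, w} (∏ k, (F k).map (Int.castRingHom ℚ)))) ∧
    ∀ (p : ℕ) [Fact p.Prime] (d : ℕ) (f : MvPolynomial (Fin 2) (ZMod p)), f.totalDegree ≤ d →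
      (∃ m ∈ f.support, m 0 ≠ 0 ∧ m 1 ≠ 0) → ∀ (g h : ZMod p → ZMod p) (A B : Finset (ZMod p)),
        Rare d A B (fun a b => (((MvPolynomial.eval ![a, b] f + g a + h b).val : ℕ) : ℝ)) := by
  refine ⟨fun K _ _ F hF hl => ?_, residues⟩
  obtain ⟨s, hs, C, h⟩ := TwistsWithMixedFactors.result.1 K F hF hl
  refine ⟨s, hs, (on_dense_twist (Bad := Exceptional.{v, w} (∏ k, (F k).map (Int.castRingHom ℚ))) hs.le 3 h).mono
    (fun W x _ h' t ht hsq n hn hev => ?_)⟩
  by_contra hcon
  exact h' t ht hsq ⟨n, hn, hev, hcon⟩

end Pool.Agent.Results.MP_c1dca2_ag.MixedOnDenseSets
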