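import Pool.Agent.Results.MP_c1dca2_ag.FamiliesOverExtensions
import Pool.Agent.U265.GM.Cnt

/-!
# No locally geometric sections for ALL members of a family near the multiples of a real vector

`E : y² = x³ + a x + b` is an elliptic curve over a number field `K` whose Tate-Shafarevich group over `K` is killed by some
`M₀ ≥ 1`, and `X` is a closed subset of `E ^ r × ℙ ^ n` over `K`, a family of closed subsets `X_y ⊆ E ^ r` with parameter space
`ℙ ^ n`, such that for all `1 ≤ m ≤ M` and all complex points `S` of `E ^ r` at most `D` complex points `y` are such that `S` is a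
sum of `m` points of `X_y` (`Admissible`). The starting result FamiliesOverExtensions: for all points `y` of `ℙ ^ n (K)` of height
at most `B` but `O(B ^ ε)` exceptions `NoSections` holds: for ALL extensions `F` of `K` of degree at most `M` no smooth curve `C`
over `F` with a map to `X_y` has a section of the map from `π₁(C)` to the absolute Galois group of `F` which is given over `F_w` by a
point (or a cusp) of `C` for all finite places `w` of `F`.

Here all rational parameters in windows are considered, there are no exceptions, and there is one exceptional set of real vectors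
for ALL families over `K`:

(1) Let `w_m ≥ 1` be a sequence for which the sums of the `w_m ^ (-t)` converge for all `t > τ` (`τ = 1 / c` for `w_m = m ^ c`,
`τ = 0` for `w_m = 2 ^ m`), and `κ < 1`. For all `v ∈ ℝ ^ (n + 1)` but a set of Hausdorff dimension at most `τ / (1 - κ)`: for ALL
admissible families over `K` (all `E`, `r`, `X`, `M`), for all large `m`, `NoSections` holds for the points `y` with the homogeneous
coordinates `z`, for ALL primitive integral vectors `z` with `|z - w_m v| ≤ w_m ^ κ`.

(2) If `τ = 0`: for all `v ∈ ℝ ^ (n + 1)` but a set of Hausdorff dimension zero this holds for all `κ < 1`.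

Proof. A primitive integral vector up to `X` gives a point of height at most `X ^ [K : ℚ]`; the cubes of the `v` with an exceptional
vector in the window are the covers in the definition of the Hausdorff measure (`Pool.Agent.U265.GM`). There are countably many
families over `K`.
-/

set_option autoImplicit false

namespace Pool.Agent.Results.MP_c1dca2_ag.SectionsNearMultiples

open MvPolynomial NumberField IsDedekindDomain Pool.Agent.TH954 Pool.Agent.W620.SC Filter
open Pool.Agent.Results.MP_c1dca2_ag.FamiliesOverExtensions (curve MultiHomog IsSum MemberOver)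

open scoped LinearAlgebra.Projectivization

/-- The data of a family `X` of closed subsets of the powers `E ^ r` of an elliptic curve `E : y² = x³ + a x + b` over `K` with
the parameter space `ℙ ^ n`, given by the equations `G_e = 0`, and a bound `M` for the degrees of the extensions of `K`. -/
structure Family (K : Type) [Field K] [NumberField K] (n : ℕ) where
  a : 𝓞 K
  b : 𝓞 K
  r : ℕ
  q : ℕ
  G : Fin q → MvPolynomial ((Fin r × Fin 3) ⊕ Fin (n + 1)) (𝓞 K)
  M : ℕ

section
variable {K : Type} [Field K] [NumberField K] {n : ℕ}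

/-- The hypotheses of the starting result: `E` is an elliptic curve, its Tate-Shafarevich group over `K` is killed by some
`M₀ ≥ 1`, the equations are multihomogeneous, and for all `1 ≤ m ≤ M` every complex point of `E ^ r` is a sum of `m` points of
`X_y` for at most `D` complex points `y` of `ℙ ^ n`. -/
structure Family.Admissible (X : Family K n) : Prop where
  elliptic : 4 * X.a ^ 3 + 27 * X.b ^ 2 ≠ 0
  sha : ∃ M₀ : ℕ, 1 ≤ M₀ ∧ ShaKilledBy (curve (X.a : K) (X.b : K)) M₀
  homogeneous : ∃ (d : Fin X.q → Fin X.r → ℕ) (deg : Fin X.q → ℕ), ∀ e, MultiHomog (X.G e) (d e) (deg e)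
  few : ∃ (σ : K →+* ℂ) (D : ℕ), ∀ m, 1 ≤ m → m ≤ X.M → ∀ S : Fin X.r → (curve (σ X.a) (σ X.b)).toAffine.Point,
    {y : ℙ ℂ (Fin (n + 1) → ℂ) | IsSum σ X.a X.b X.G m S y.rep}.encard ≤ D

/-- For all extensions `F` of `K` of degree at most `M` no smooth curve over `F` with a map to `X_y` has a section of the
map from its fundamental group to the absolute Galois group of `F` which is given by points over `F_w` for all finite `w`
(the conclusion of the starting result; `L` is the function field of the curve, `U` are the valuation rings of its points). -/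
def Family.NoSections (X : Family K n) (y : ℙ K (Fin (n + 1) → K)) : Prop :=
  ∀ (F : Type) [Field F] [NumberField F] [Algebra K F] (_ : Module.finrank K F ≤ X.M)
    (L Ω N A : Type) [Field L] [Field Ω] [Field N] [Field A] [Algebra F L] [Algebra L Ω]
    [Algebra F Ω] [Algebra L N] [Algebra F N] [Algebra F A] [IsScalarTower F L Ω]
    [IsScalarTower F L N] [IsAlgClosure L Ω] [IsAlgClosure F A]
    (U : Set (ValuationSubring L)) (_ : ∀ O ∈ U, ∀ c : F, algebraMap F L c ∈ O)
    (e : N →ₐ[L] Ω) (_ : unramified L Ω U ≤ e.fieldRange)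
    (P : Fin X.r → ((curve (algebraMap K F X.a) (algebraMap K F X.b)).baseChange L).toAffine.Point)
    (_ : OnX (MemberOver X.G F y) (fun i => crd (P i))) (s : GalSection F L N A),
    ¬ ∀ w : HeightOneSpectrum (𝓞 F),
      ∃ p : Plc F N (AlgebraicClosure (w.adicCompletion F)), s.GivenBy (w.adicCompletion F) p

/-- For all large `m` the point with the homogeneous coordinates `z` has the property `P` for ALL primitive integral vectors `z`
with `|z - W_m v| ≤ W_m ^ κ`. -/
def NearVector (P : ℙ K (Fin (n + 1) → K) → Prop) (κ : ℝ) (W : ℕ → ℝ) (v : Fin (n + 1) → ℝ) : Prop :=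
  ∀ᶠ m : ℕ in atTop, ∀ z : Fin (n + 1) → ℤ, Finset.univ.gcd z = 1 → (∀ i, |(z i : ℝ) - W m * v i| ≤ W m ^ κ) →
    ∀ h : (fun i => (z i : K)) ≠ 0, P (Projectivization.mk K (fun i => (z i : K)) h)

lemma countable_family : Countable (Family K n) := by
  have := Pool.Agent.U265.GM.countable_int K
  have : ∀ r : ℕ, Countable (MvPolynomial ((Fin r × Fin 3) ⊕ Fin (n + 1)) (𝓞 K)) := fun r =>
    Pool.Agent.U265.GM.countable_mv _ _
  refine Function.Injective.countable (f := fun X : Family K n =>
    ((X.a, X.b, X.M, (⟨X.r, X.q, X.G⟩ :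
      Σ r : ℕ, Σ q : ℕ, (Fin q → MvPolynomial ((Fin r × Fin 3) ⊕ Fin (n + 1)) (𝓞 K)))) :
      𝓞 K × 𝓞 K × ℕ × (Σ r : ℕ, Σ q : ℕ, (Fin q → MvPolynomial ((Fin r × Fin 3) ⊕ Fin (n + 1)) (𝓞 K))))) ?_
  rintro ⟨a, b, r, q, G, M⟩ ⟨a', b', r', q', G', M'⟩ h
  simp only [Prod.mk.injEq, Sigma.mk.injEq] at h
  obtain ⟨rfl, rfl, rfl, rfl, h⟩ := h
  rw [heq_eq_eq, Sigma.mk.injEq] at h
  obtain ⟨rfl, h⟩ := h
  rw [heq_eq_eq] at h
  rw [h]

lemma few_level (X : Family K n) (hX : X.Admissible) :
    Pool.Agent.U265.GM.FewLevel (fun _ : ℕ => X.NoSections) := by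
  obtain ⟨M₀, hM1, hM⟩ := hX.sha
  obtain ⟨d, deg, hG⟩ := hX.homogeneous
  obtain ⟨σ, D, hD⟩ := hX.few
  intro ε hε
  obtain ⟨C, hC⟩ := FamiliesOverExtensions.result K X.a X.b hX.elliptic M₀ hM1 hM X.r n X.q X.G d deg hG σ X.M D hD ε hε
  refine ⟨max C 1, fun B hB => ⟨1, le_rfl, ?_, ?_⟩⟩
  · have h1 : 1 ≤ B ^ ε := Real.one_le_rpow hB hε.le
    have h2 : (1 : ℝ) ≤ max C 1 := le_max_right _ _
    rw [Nat.cast_one]
    nlinarith
  · obtain ⟨Z, hZ, h1⟩ := hC B hB
    refine ⟨Z, hZ.trans ?_, h1⟩
    exact mul_le_mul_of_nonneg_right (le_max_left _ _) (Real.rpow_nonneg (by linarith) _)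

lemma near_of_level {P : ℙ K (Fin (n + 1) → K) → Prop} {κ : ℝ} {W : ℕ → ℝ} {v : Fin (n + 1) → ℝ}
    (h : ∀ δ : ℝ, 0 < δ → Pool.Agent.U265.GM.NearLevel (fun _ : ℕ => P) δ κ W v) : NearVector P κ W v := by
  refine (h 1 one_pos).mono ?_
  rintro m ⟨N, -, -, h1⟩ z hz1 hz2 h2
  exact h1 z hz1 hz2 _ ⟨h2, rfl⟩

end

theorem result (K : Type) [Field K] [NumberField K] (n : ℕ) :
    (∀ κ τ : ℝ, κ < 1 → 0 ≤ τ → ∀ w : ℕ → ℝ, (∀ m, 1 ≤ w m) → (∀ t : ℝ, τ < t → Summable fun m => w m ^ (-t)) →
      dimH {v : Fin (n + 1) → ℝ | ¬ ∀ X : Family K n, X.Admissible → NearVector X.NoSections κ w v} ≤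
        ENNReal.ofReal (τ / (1 - κ))) ∧
    (∀ w : ℕ → ℝ, (∀ m, 1 ≤ w m) → (∀ t : ℝ, 0 < t → Summable fun m => w m ^ (-t)) →
      dimH {v : Fin (n + 1) → ℝ | ¬ ∀ κ : ℝ, κ < 1 → ∀ X : Family K n, X.Admissible →
        NearVector X.NoSections κ w v} = 0) := by
  have : Countable (Family K n) := countable_family
  refine ⟨fun κ τ hκ hτ w hw hs => ?_, fun w hw hs => ?_⟩
  · refine le_trans (dimH_mono ?_) (Pool.Agent.U265.GM.proj_dil
      (fun (X : {X : Family K n // X.Admissible}) (_ : ℕ) => X.1.NoSections) (fun X => few_level X.1 X.2) hκ hτ w hw hs)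
    intro v hv h
    exact hv fun X hX => near_of_level (h ⟨X, hX⟩)
  · refine le_antisymm ?_ bot_le
    refine le_trans (dimH_mono ?_) (Pool.Agent.U265.GM.proj_zero
      (fun (X : {X : Family K n // X.Admissible}) (_ : ℕ) => X.1.NoSections) (fun X => few_level X.1 X.2) w hw hs).le
    intro v hv h
    exact hv fun κ hκ X hX => near_of_level (h κ hκ ⟨X, hX⟩)

end Pool.Agent.Results.MP_c1dca2_ag.SectionsNearMultiples
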