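import Pool.Agent.U188.CS.Fin
import Pool.Agent.Results.MP_ab3ecb_nt.DescentOverCubicTowers

/-!
# Sections of fundamental groups over the fields `ℚ(ω, ∛l : l ∈ M)`, for curves with a map to a product of
# cubic twists

`E_D : y² + D y = x³` is the curve 3-isogenous to `x³ + y³ = D`.  `M` is any finite set of primes
`≡ 1` modulo `9`, `K = ℚ(ω, ∛l : l ∈ M)`, a Galois extension of `ℚ` of degree `2 · 3 ^ #M`.  Let
`D_1, …, D_n` be squarefree numbers of the class below such that the 3-descent over `ℚ` is complete for
all the twists `D_i ∏ l^{t_l}`, `t_l = 0, 1, 2`; the proportion of these numbers in the class is exactly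
`c ^ {3 ^ #M}`, `c = ∏_{i ≥ 1} (1 - 3^{-i}) = 0.5601…`.  Let `X` be any closed subset of
`E_{D_1} × … × E_{D_n}` over `K`, and let `C` be a smooth curve (or variety) over `K` with function
field `F` and a map to `X`, that is, a point `(P_1, …, P_n) ∈ X(F)`; for instance `C = X`. Let `F_C` be the
maximal extension of `F` in an algebraic closure which is unramified over the points of `C`, so that
`π₁(C) = Gal(F_C/F)`. Let `s` be a section of the map from `π₁(C)` to the absolute Galois group of `K`
which is given over the completions of `K` at the finite places `v` by valuations of `F_C` with values in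
an algebraic closure of the completion (places `pl v`), as in the valuative form of the section conjecture.

Theorem.  (1) There is a `K`-rational point `y` of the product such that `s` lifts to all the coverings
of `P - y` by the multiplication by `3 ^ k`: the section has the same 3-adic Kummer classes as `y`. At the
places `v` above `3` the valuation lies over a point `w` of `X(K_v)` with `2 w = 2 y`, and `w_i = y_i` if
`D_i = ±4` modulo `9`.
(2) If all `D_i` are `±4` modulo `9` then `y ∈ X(K)`, so the restrictions of `s` to the decomposition groups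
at all the places above `3` come from ONE rational point `y` of `X`. The product has only the `3 ^ n` obvious
rational points.
(3) So if all `D_i` are `±4` modulo `9` and `X(K)` is empty there is no such section, and even no such section
of a certain finite level `3 ^ k`, with `k` depending only on `X`, but not on `C`. For general `D_i` this
holds if for one `v` above `3` there are no points `w` as in (1).

The 3-primary parts of the Tate-Shafarevich groups over `K` need not be trivial: they are killed by
`3 ^ #M`, and nothing is assumed about the other primary parts.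

The proof.  The division points of the `P_i` over `F_C` give cocycles which are locally trivial at the
finite places, as the valuations give points of the coverings over the completions; the infinite places are
complex. As `Ш[3^∞]` is killed by `3 ^ #M` the classes come after multiplication by `3 ^ #M` from rational
points; these are finite in number, which gives one point for all `k`. The local points at `v` differ from
`y` by points divisible by all powers of three in `E_i(K_v)`, and the local theory of
`MP_ab3ecb_nt.DescentOverCubicTowers` applies.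
-/

set_option autoImplicit false
set_option linter.all false

namespace Pool.Agent.Results.MP_c1dca2_ag.SectionsOverCubicTowers

open IsDedekindDomain NumberField WeierstrassCurve MvPolynomial Filter Topology
open Pool.Agent.TH954 (pm Plc OnX crd GalSection toSAct)
open Pool.Agent.W620.SC (unramified)
open Pool.Agent.U188.CS (LiftsDiff sections_near no_section div_unram isComplex_of)
open Pool.Agent.Results.MP_ab3ecb_nt.DescentOverCubicTowers (curve InClass Good Closure num c
  OnlyThree over_clo)
open Pool.Agent.TH954 (MultiHom)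
open Pool.Agent.U188.CT (NearT)
open scoped Classical

section

variable {K : Type} [Field K] {n : ℕ}

/-- The `L`-points of `E_{D_1} × … × E_{D_n}`, for an extension `L` of `K`. -/
abbrev Pts (K : Type) [Field K] {n : ℕ} (D : Fin n → ℕ) (L : Type) [Field L] [Algebra K L] : Type :=
  (i : Fin n) → ((curve (D i) K).baseChange L).toAffine.Point

/-- The point `P` lies on the closed subset `X` with the equations `S`. -/
def On {D : Fin n → ℕ} {L : Type} [Field L] [Algebra K L] (S : Set (MvPolynomial (Fin n × Fin 3) K))
    (P : Pts K D L) : Prop := OnX S (fun i => crd (P i))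

/-- The valuation `pl` lies over the `L`-rational point `w`: the `P i` specialise to the `w i`. -/
def Over {D : Fin n → ℕ} {F M L C : Type} [Field F] [Field M] [Field L] [Field C] [Algebra K F]
    [Algebra F M] [Algebra K M] [Algebra K L] [Algebra K C] [Algebra L C] (pl : Plc K M C)
    (P : Pts K D F) (w : Pts K D L) : Prop :=
  ∀ i, pl.Spec (fun j => algebraMap F M (crd (P i) j)) (fun j => algebraMap L C (crd (w i) j))

/-- `2 w = 2 y`, and `w i = y i` if `D i = ±4` modulo `9`. -/
def NearTo {D : Fin n → ℕ} {L : Type} [Field L] [Algebra K L] (w : Pts K D L) (y : Pts K D K) : Prop :=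
  ∀ i, 2 • w i = 2 • pm (curve (D i) K) (Algebra.ofId K L) (y i) ∧
    (D i % 9 = 4 ∨ D i % 9 = 5 → w i = pm (curve (D i) K) (Algebra.ofId K L) (y i))

/-- The `P i` have division points by `N` over `M`. -/
def Divisible {D : Fin n → ℕ} {F : Type} [Field F] [Algebra K F] (P : Pts K D F) (N : ℕ) (M : Type)
    [Field M] [Algebra F M] [Algebra K M] [IsScalarTower K F M] : Prop :=
  ∀ i, ∃ Q : ((curve (D i) K).baseChange M).toAffine.Point,
    N • Q = pm (curve (D i) K) (IsScalarTower.toAlgHom K F M) (P i)

variable [NumberField K]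

/-- A place of `M` with values in an algebraic closure of the completion, for each finite place. -/
abbrev Places (K : Type) [Field K] [NumberField K] (M : Type) [Field M] [Algebra K M] : Type :=
  ∀ v : HeightOneSpectrum (𝓞 K), Plc K M (AlgebraicClosure (v.adicCompletion K))

/-- The section `s` is given at each finite place `v` by the valuation `pl v`. -/
def Locally {F M B : Type} [Field F] [Field M] [Field B] [Algebra F M] [Algebra K M] [Algebra K B]
    (s : GalSection K F M B) (pl : Places K M) : Prop :=
  ∀ v, s.GivenBy (v.adicCompletion K) (pl v)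

/-- The conclusion for the section `s`: for one `K`-rational point `y` of the product the section lifts to
all the coverings of `P - y` by `3 ^ k`; at the places `v` above `3` the valuation `pl v` lies over a point
`w` of `X` over the completion which is near `y`; and `y` is in `X` if all `D_i` are `±4` modulo `9`. -/
def NearSection {F M B : Type} [Field F] [Field M] [Field B] [Algebra K F] [Algebra F M] [Algebra K M]
    [Algebra K B] [IsScalarTower K F M] (D : Fin n → ℕ) (S : Set (MvPolynomial (Fin n × Fin 3) K))
    (P : Pts K D F) (s : GalSection K F M B) (pl : Places K M) : Prop :=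
  ∃ y : Pts K D K, (∀ (k : ℕ) (i : Fin n), LiftsDiff s (curve (D i) K) (P i) (y i) (3 ^ k)) ∧
    (∀ v : HeightOneSpectrum (𝓞 K), (3 : 𝓞 K) ∈ v.asIdeal →
      ∃ w : Pts K D (v.adicCompletion K), On S w ∧ Over (pl v) P w ∧ NearTo w y) ∧
    ((∀ i, D i % 9 = 4 ∨ D i % 9 = 5) → On S y)

/-- The theorem on sections of `π₁(C)`: for every smooth variety `C` over `K` (function field `F`,
local rings of the points of codimension one) with a map to the closed subset `X` with the equations
`S`, that is, a point `P` of `X` over `F`, and every section `s`, given at the finite places by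
valuations `pl v`, of `Gal(M / F) → Gal(B / K)`, where `M` contains the maximal extension of `F`
unramified over `C`. -/
def SectionsNear (K : Type) [Field K] [NumberField K] {n : ℕ} (D : Fin n → ℕ)
    (S : Set (MvPolynomial (Fin n × Fin 3) K)) : Prop :=
  ∀ (F Ω M B : Type) [Field F] [Field Ω] [Field M] [Field B] [Algebra K F] [Algebra F Ω]
    [Algebra K Ω] [Algebra F M] [Algebra K M] [Algebra K B] [IsScalarTower K F Ω]
    [IsScalarTower K F M] [IsAlgClosure F Ω] [IsAlgClosure K B]
    (C : Set (ValuationSubring F)), (∀ O ∈ C, ∀ c : K, algebraMap K F c ∈ O) →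
    ∀ e : M →ₐ[F] Ω, unramified F Ω C ≤ e.fieldRange →
    ∀ P : Pts K D F, On S P → ∀ (s : GalSection K F M B) (pl : Places K M), Locally s pl →
      NearSection D S P s pl

/-- There is no section, given at the finite places by valuations, of `Gal(M / F) → Gal(B / K)`, if `F`
has a point `P` of `X` (equations `S`) and `M` contains division points of the `P i` by `N`. -/
def NoSection (K : Type) [Field K] [NumberField K] {n : ℕ} (D : Fin n → ℕ)
    (S : Set (MvPolynomial (Fin n × Fin 3) K)) (N : ℕ) : Prop :=
  ∀ (F M B : Type) [Field F] [Field M] [Field B] [Algebra K F] [Algebra F M]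
    [Algebra K M] [Algebra K B] [IsScalarTower K F M] [IsAlgClosure K B]
    [Algebra.IsAlgebraic F M] (P : Pts K D F), On S P → Divisible P N M →
    ¬ ∃ (s : GalSection K F M B) (pl : Places K M), Locally s pl

/-- The `K`-rational points of the product are the `3 ^ n` obvious ones if all `D_i` are `±4` modulo `9`;
and if no point of `X` over the completion at `v` is near a rational point, `v` above `3`, in particular if
all `D_i` are `±4` modulo `9` and `X` has no rational point, then there is no section of some finite level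
`3 ^ k`, for all curves with a map to `X`. -/
def FiniteLevel (K : Type) [Field K] [NumberField K] {n : ℕ} (D : Fin n → ℕ)
    (S : Set (MvPolynomial (Fin n × Fin 3) K)) : Prop :=
  (∀ v : HeightOneSpectrum (𝓞 K), (3 : 𝓞 K) ∈ v.asIdeal →
    (¬ ∃ (w : Pts K D (v.adicCompletion K)) (y : Pts K D K), On S w ∧ NearTo w y) →
      ∃ k : ℕ, NoSection K D S (3 ^ k)) ∧
  ((∀ i, D i % 9 = 4 ∨ D i % 9 = 5) → (∀ i, OnlyThree K (D i)) ∧
    ((¬ ∃ y : Pts K D K, On S y) → ∃ k : ℕ, NoSection K D S (3 ^ k)))

end

section

variable {K : Type} [Field K] {n : ℕ} {D : Fin n → ℕ}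

lemma nearTo_of {L : Type} [Field L] [Algebra K L] {w : Pts K D L} {y : Pts K D K}
    (h : ∀ i, NearT (D i) L (w i) (y i)) : NearTo w y :=
  fun i => ⟨(h i).1, fun h4 => (h i).2 (by omega) (by omega)⟩

lemma on_of_near {L : Type} [Field L] [Algebra K L] {S : Set (MvPolynomial (Fin n × Fin 3) K)}
    {w : Pts K D L} {y : Pts K D K} (hw : On S w) (h : NearTo w y)
    (h45 : ∀ i, D i % 9 = 4 ∨ D i % 9 = 5) : On S y := by
  have h1 : w = fun i => pm (curve (D i) K) (Algebra.ofId K L) (y i) :=
    funext fun i => (h i).2 (h45 i)
  rw [h1] at hw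
  exact (Pool.Agent.U188.CT.onX_pm _ S y L).1 hw

end

/-- **Main theorem.** -/
theorem result (M : Finset ℕ) (hM : ∀ l ∈ M, l.Prime ∧ l % 9 = 1) :
    (∃ (K : Type) (_ : Field K) (_ : NumberField K), Closure M K) ∧
    (∀ (K : Type) [Field K] [NumberField K], Closure M K →
      ∀ (n : ℕ) (D : Fin n → ℕ), (∀ i, InClass M (D i) ∧ Good M (D i)) →
      ∀ S : Set (MvPolynomial (Fin n × Fin 3) K), (∀ f ∈ S, ∃ d, MultiHom d f) →
      SectionsNear K D S ∧ FiniteLevel K D S) ∧
    (0.56 : ℝ) < c ∧
    Tendsto (fun X : ℕ => (num M (Good M) X : ℝ) / (num M (fun _ => True) X : ℝ)) atTop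
      (𝓝 (c ^ 3 ^ M.card)) ∧
    ∃ a : ℝ, 0 < a ∧ ∃ X₀ : ℕ, ∀ X : ℕ, X₀ ≤ X →
      a * X / Real.sqrt (Real.log X) ≤ (num M (Good M) X : ℝ) := by
  obtain ⟨r1, r2, r3, r4, r5⟩ :=
    Pool.Agent.Results.MP_ab3ecb_nt.DescentOverCubicTowers.result M hM
  refine ⟨r1, fun K _ _ hK n D hD S hS => ?_, r3, r4, r5⟩
  have h3 : ∀ i, ¬ 3 ∣ D i := fun i => (hD i).1.2.1
  have hD0 : ∀ i, D i ≠ 0 := fun i h0 => h3 i (h0 ▸ dvd_zero 3)
  have hfin : ∀ i, Finite (Pool.Agent.Y696.CTK.ED (D i : K)).toAffine.Point := fun i =>
    (over_clo hM (hD i).1 (hD i).2 K hK).1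
  have hsha : ∀ i, Pool.Agent.U188.CT.Kill (Pool.Agent.Y696.CTK.ED (D i : K)) M.card := fun i =>
    (over_clo hM (hD i).1 (hD i).2 K hK).2
  have h33 : ((3 : ℕ) : 𝓞 K) = 3 := by norm_num
  obtain ⟨ω, r, h1, h2, hgen⟩ := hK
  have hcx : ∀ w : InfinitePlace K, w.IsComplex := fun w => isComplex_of h1 w
  have hloc : ∀ v : HeightOneSpectrum (𝓞 K), ((3 : ℕ) : 𝓞 K) ∈ v.asIdeal →
      Pool.Agent.U188.CT.Three (v.adicCompletion K) ∧
      Pool.Agent.U188.CT.Tors (v.adicCompletion K) := by
    intro v hv
    have : ProperSpace (v.adicCompletion K) := Pool.Agent.Y791.BS.proper v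
    exact ⟨Pool.Agent.U188.CT.three_of v hv, Pool.Agent.U188.CT.tors_isLoc
      (Pool.Agent.U188.CT.three_of v hv)
      (Pool.Agent.U188.CT.isLoc_tower h1 (fun l hl => (hM l hl).2) r h2 hgen v hv)⟩
  have hno : ∀ v : HeightOneSpectrum (𝓞 K), (3 : 𝓞 K) ∈ v.asIdeal →
      (¬ ∃ (w : Pts K D (v.adicCompletion K)) (y : Pts K D K), On S w ∧ NearTo w y) →
      ∃ k : ℕ, NoSection K D S (3 ^ k) := by
    intro v hv hcon
    rw [← h33] at hv
    by_contra hk
    push Not at hk
    obtain ⟨w, hw, y, hy⟩ := no_section h3 M.card hfin hsha hcx hS v (hloc v hv).1 (hloc v hv).2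
      (fun k h => hk k h)
    exact hcon ⟨w, y, hw, nearTo_of hy⟩
  refine ⟨?_, hno, fun h45 => ⟨?_, fun hX => ?_⟩⟩
  · intro F Ω L B _ _ _ _ _ _ _ _ _ _ _ _ _ _ C hC e he P hPS s pl hp
    have hΩ1 : IsAlgClosed Ω := IsAlgClosure.isAlgClosed F
    have hΩ2 : Algebra.IsAlgebraic F Ω := IsAlgClosure.isAlgebraic
    have hMalg : Algebra.IsAlgebraic F L := Algebra.IsAlgebraic.of_injective e e.injective
    obtain ⟨y, h4, h5⟩ := sections_near h3 M.card hfin hsha hcx hloc hS P hPS s pl hp
      (fun k i => div_unram (hD0 i) ((e.restrictScalars K).comp (toSAct s).j) C hC e he (P i)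
        (Nat.one_le_pow _ _ (by norm_num)))
    have h6 : ∀ v : HeightOneSpectrum (𝓞 K), (3 : 𝓞 K) ∈ v.asIdeal →
        ∃ w : Pts K D (v.adicCompletion K), On S w ∧ Over (pl v) P w ∧ NearTo w y := by
      intro v hv
      rw [← h33] at hv
      obtain ⟨w, h7, h8, h9⟩ := h5 v hv
      exact ⟨w, h7, h8, nearTo_of h9⟩
    refine ⟨y, h4, h6, fun h45 => ?_⟩
    obtain ⟨v, hv⟩ := Pool.Agent.U188.CT.exists_three K
    rw [h33] at hv
    obtain ⟨w, h7, -, h9⟩ := h6 v hv
    exact on_of_near h7 h9 h45
  · exact ((r2 K ⟨ω, r, h1, h2, hgen⟩ n D hD S hS).2 h45).1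
  · obtain ⟨v, hv⟩ := Pool.Agent.U188.CT.exists_three K
    rw [h33] at hv
    refine hno v hv ?_
    rintro ⟨w, y, hw, hy⟩
    exact hX ⟨y, on_of_near hw hy h45⟩

end Pool.Agent.Results.MP_c1dca2_ag.SectionsOverCubicTowers
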